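import Pool.Agent.H88.MCR.Stmts3

/-!
Row CRN (MP_ffb5eb_co): two new edges do not cross (relative version of CNN of helper40).
-/

set_option autoImplicit false

namespace Pool.MCR

theorem crn_thm (hINB : INB_S) (hPRJ : PRJ_S) (hLOC : LOC_S) (hKLT : KLT_S) (hKIR : KIR_S)
    (hCLR : CLR_S) (_hCLB : CLB_S) : CRN_S := by
  intro L _ R n D w r hD hw hr y hy z hz hRy hRz hyz
  obtain ⟨hK1, hK2, hK3⟩ := hKIR L R n D hD
  have hyw : y ≠ w := by
    rintro rfl
    exact hD.irr y hRy
  have hzw : z ≠ w := by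
    rintro rfl
    exact hD.irr z hRz
  obtain ⟨-, hL2, -, -, hL5, -, hL7⟩ := hLOC L
  obtain ⟨-, -, hT3, -, -⟩ := hKLT L (D.pos w)
  have hcomm : ∀ A B : Arc (L ×ₗ ℤ), Cross A B → Cross B A := by
    rintro A B ⟨hs, hI⟩
    exact ⟨hs.symm, ((hINB _ _ _ _ _).2.2.1).1 hI⟩
  have hshare : ∀ (s s' : Bool) (a b d : L ×ₗ ℤ), ¬ Cross ((s, a, b) : Arc (L ×ₗ ℤ)) (s', a, d) :=
    fun s s' a b d hC => ((hINB _ a b a d).2.2.2 hC.2).2.1 rfl
  -- the image of an arc which starts at `w`
  have hlaw : ∀ (x : ℕ) (s : Bool) (b : L), ∃ β : ℤ, la D w r x (s, D.pos w, b) =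
      (s, lp (D.pos w) (if s = true then - r x else 1), lp b β) := by
    intro x s b
    refine ⟨if b = D.pos x then 0 else (if s = true then 1 else -1), ?_⟩
    simp only [la, if_true]
  -- a small lower arc and the image of an arc
  have h2 : ∀ x < n, R w x → ∀ (k : ℤ), ∀ B ∈ D.A w x,
      ¬ Cross ((false, lp (D.pos w) 1, lp (D.pos w) k) : Arc (L ×ₗ ℤ)) (la D w r x B) := by
    rintro x hx hRx k ⟨s, a, b⟩ hB hC
    obtain ⟨-, -, -, hmem, -⟩ := hK1 w hw x hx hRx
    obtain ⟨-, -, -, hbw, -, hfst⟩ := hmem s a b hB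
    have hs : false = s := hC.1
    subst hs
    by_cases ha : a = D.pos w
    · subst ha
      obtain ⟨β, hβ⟩ := hlaw x false b
      rw [hβ, if_neg (by decide)] at hC
      exact hshare _ _ _ _ _ hC
    · exact hL7 (D.pos w) a b _ _ _ _ (Ne.symm ha) (Ne.symm hbw) hC.2
  rw [hCLR L R n D w y r hD hw hy hRy, hCLR L R n D w z r hD hw hz hRz]
  have hcom : ∀ c, c ∈ D.P w y → c ∈ D.P w z → c = D.pos w := by
    intro c e1 e2
    rcases hK2 w hw y hy w hw z hz hRy hRz (fun h => hyz h.2)
      (fun h => hyw h.2) c e1 e2 with h | h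
    · exact h.1
    · rcases h.2 with h3 | h3
      · exact absurd h3 hyw
      · exact absurd h3 hyz
  obtain ⟨-, hny, -, hmy, -⟩ := hK1 w hw y hy hRy
  obtain ⟨-, hnz, -, hmz, -⟩ := hK1 w hw z hz hRz
  have hnn : D.nx w y ≠ D.nx w z := hK3 w hw y hy z hz hRy hRz hyz
  intro A hA B hB hC
  rcases List.mem_append.1 hA with hA | hA
  · by_cases hS : D.S w y = true
    · rw [if_pos hS, List.mem_singleton] at hA
      subst hA
      rcases List.mem_append.1 hB with hB | hB
      · by_cases hS' : D.S w z = true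
        · rw [if_pos hS', List.mem_singleton] at hB
          subst hB
          exact hshare _ _ _ _ _ hC
        · rw [if_neg hS'] at hB
          exact absurd hB List.not_mem_nil
      · obtain ⟨B0, hB0, rfl⟩ := List.mem_map.1 hB
        exact h2 z hz hRz _ B0 hB0 hC
    · rw [if_neg hS] at hA
      exact absurd hA List.not_mem_nil
  · obtain ⟨A0, hA0, rfl⟩ := List.mem_map.1 hA
    rcases List.mem_append.1 hB with hB | hB
    · by_cases hS' : D.S w z = true
      · rw [if_pos hS', List.mem_singleton] at hB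
        subst hB
        exact h2 y hy hRy _ A0 hA0 (hcomm _ _ hC)
      · rw [if_neg hS'] at hB
        exact absurd hB List.not_mem_nil
    · obtain ⟨B0, hB0, rfl⟩ := List.mem_map.1 hB
      obtain ⟨s, a, b⟩ := A0
      obtain ⟨s', c, d⟩ := B0
      obtain ⟨ha1, hb1, -, hbw, -, hfa⟩ := hmy s a b hA0
      obtain ⟨hc1, hd1, -, hdw, -, hfc⟩ := hmz s' c d hB0
      have hss : s = s' := hC.1
      subst hss
      by_cases hboth : a = D.pos w ∧ c = D.pos w
      · obtain ⟨ha, hc⟩ := hboth
        obtain ⟨hsy, hby⟩ := hfa ha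
        obtain ⟨hsz, hdz⟩ := hfc hc
        subst ha
        subst hc
        obtain ⟨β, hβ⟩ := hlaw y s b
        obtain ⟨δ, hδ⟩ := hlaw z s d
        rw [hβ, hδ] at hC
        by_cases hst : s = true
        · rw [if_pos hst, if_pos hst] at hC
          have hSy : D.S w y = true := by rw [← hsy]; exact hst
          have hSz : D.S w z = true := by rw [← hsz]; exact hst
          rcases hT3 (D.nx w y) (D.nx w z) hny hnz hnn with hk | hk
          · have hlt := hr.2 y hy z hz hRy hRz hyz hSy hSz hk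
            rw [hby, hdz] at hC
            exact hL2 (D.pos w) (D.nx w y) (D.nx w z) (r y) (r z) β δ hk hlt hC.2
          · have hlt := hr.2 z hz y hy hRz hRy (Ne.symm hyz) hSz hSy hk
            rw [hby, hdz] at hC
            exact hL2 (D.pos w) (D.nx w z) (D.nx w y) (r z) (r y) δ β hk hlt (hcomm _ _ hC).2
        · rw [if_neg hst, if_neg hst] at hC
          exact hshare _ _ _ _ _ hC
      · have hnot : ∀ e, e ∈ D.P w y → e ∈ D.P w z → (e = a ∨ e = b) → (e = c ∨ e = d) →
            False := by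
          intro e e1 e2 e3 e4
          have h5 := hcom e e1 e2
          apply hboth
          constructor
          · rcases e3 with e3 | e3
            · rw [← e3]; exact h5
            · exact absurd (e3.symm.trans h5) hbw
          · rcases e4 with e4 | e4
            · rw [← e4]; exact h5
            · exact absurd (e4.symm.trans h5) hdw
        have e1 : a ≠ c := fun h => hnot a ha1 (by rw [h]; exact hc1) (Or.inl rfl) (Or.inl h)
        have e2 : a ≠ d := fun h => hnot a ha1 (by rw [h]; exact hd1) (Or.inl rfl) (Or.inr h)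
        have e3 : b ≠ c := fun h => hnot b hb1 (by rw [h]; exact hc1) (Or.inr rfl) (Or.inl h)
        have e4 : b ≠ d := fun h => hnot b hb1 (by rw [h]; exact hd1) (Or.inr rfl) (Or.inr h)
        have hI : Inter a b c d := (hPRJ L a b c d _ _ _ _ e1 e2 e3 e4).1 hC.2
        exact hD.adj w hw y hy z hz hRy hRz hyz _ hA0 _ hB0 ⟨rfl, hI⟩

end Pool.MCR
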