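import Pool.Agent.H88.MCR.Stmts3

/-!
Row CRO (MP_ffb5eb_co): a new edge and an old edge with a common end point do not cross (relative
version of CNO of helper23).
-/

set_option autoImplicit false

namespace Pool.MCR

theorem cro_sgn (s : Bool) (p q : Prop) [Decidable p] [Decidable q] (ρ : ℤ) (h : 1 ≤ ρ) :
    (0 < (if p then (if s = true then -ρ else 1) else (if s = true then -1 else 1) : ℤ) ∧
      (if q then 0 else (if s = true then 1 else -1) : ℤ) ≤ 0) ∨
    ((if p then (if s = true then -ρ else 1) else (if s = true then -1 else 1) : ℤ) < 0 ∧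
      0 ≤ (if q then 0 else (if s = true then 1 else -1) : ℤ)) := by
  cases s
  · left
    by_cases hp : p <;> by_cases hq : q <;> rw [if_neg (by decide : ¬ (false = true))] <;>
      simp [hp, hq]
  · right
    by_cases hp : p <;> by_cases hq : q <;> simp [hp, hq] <;> omega

theorem cro_thm (hINB : INB_S) (hPRJ : PRJ_S) (hLOC : LOC_S) (hKIR : KIR_S) (hCLR : CLR_S)
    (hCLB : CLB_S) : CRO_S := by
  intro L _ R n D w r hD hw hr x hx z hz hRx hRz
  have hxw : x ≠ w := by
    rintro rfl
    exact hD.irr x hRx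
  obtain ⟨hK1, hK2, -⟩ := hKIR L R n D hD
  obtain ⟨-, hB2, -, -⟩ := hCLB L n D w r hw
  obtain ⟨hL1, -, -, -, -, -, hL7⟩ := hLOC L
  -- a small arc at `w` does not cross arcs that do not touch `w`
  have hsm0 : ∀ (s : Bool) (k j : ℤ) (B0 : Arc L), D.pos w ≠ B0.2.1 → D.pos w ≠ B0.2.2 →
      ¬ Cross ((s, lp (D.pos w) k, lp (D.pos w) j) : Arc (L ×ₗ ℤ)) (l0 B0) := by
    intro s k j B0 h1 h2 h
    exact hL7 (D.pos w) B0.2.1 B0.2.2 k j 0 0 h1 h2 h.2
  rw [hB2 x hx z hz]
  rw [hCLR L R n D w x r hD hw hx hRx]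
  -- arcs with disjoint end points
  have hla : ∀ A0 B0 : Arc L, A0.2.1 ≠ B0.2.1 → A0.2.1 ≠ B0.2.2 → A0.2.2 ≠ B0.2.1 →
      A0.2.2 ≠ B0.2.2 → Cross (la D w r x A0) (l0 B0) → Cross A0 B0 := by
    intro A0 B0 h1 h2 h3 h4 h
    refine ⟨h.1, ?_⟩
    exact (hPRJ L A0.2.1 A0.2.2 B0.2.1 B0.2.2 _ _ 0 0 h1 h2 h3 h4).1 h.2
  obtain ⟨-, -, -, hA4, hA5⟩ := hK1 w hw x hx hRx
  by_cases hzw : z = w
  · subst hzw
    intro A hA B hB hc
    obtain ⟨⟨s', d, c⟩, hB0, rfl⟩ := List.mem_map.1 hB
    have hB1' := hD.symA x hx z hz hRz s' d c hB0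
    -- the reversed arc
    have hc' : Cross A (l0 (s', c, d)) := by
      refine ⟨hc.1, ?_⟩
      obtain ⟨-, h, -, -⟩ := hINB (L ×ₗ ℤ) A.2.1 A.2.2 (lp d 0) (lp c 0)
      exact h.1 hc.2
    obtain ⟨-, -, hcd, hdw, -, hfst⟩ := hA4 s' c d hB1'
    rcases List.mem_append.1 hA with hA | hA
    · by_cases hS : D.S z x = true
      · rw [if_pos hS, List.mem_singleton] at hA
        rw [hA] at hc'
        by_cases hcw : c = D.pos z
        · obtain ⟨h1, -⟩ := hfst hcw
          have h3 : false = s' := hc'.1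
          rw [h1, hS] at h3
          exact absurd h3 (by decide)
        · exact hsm0 false 1 (- r x) (s', c, d) (fun h => hcw h.symm) (fun h => hdw h.symm) hc'
      · rw [if_neg hS] at hA
        exact absurd hA List.not_mem_nil
    · obtain ⟨⟨s, a, b⟩, hA0, rfl⟩ := List.mem_map.1 hA
      have hss : s = s' := hc'.1
      subst hss
      by_cases hsame : a = c ∧ b = d
      · obtain ⟨h1, h2⟩ := hsame
        subst h1 h2
        obtain ⟨-, -, hab, hbw, haxx, -⟩ := hA4 s a b hA0
        have hr1 := hr.1 x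
        refine hL1 a b (if a = D.pos z then (if s = true then - r x else 1)
          else (if s = true then -1 else 1))
          (if b = D.pos x then 0 else (if s = true then 1 else -1)) hab ?_ hc'.2
        exact cro_sgn s _ _ (r x) hr1
      · obtain ⟨h1, h2, h3, h4⟩ := hA5 s a b c d hA0 hB1' hsame
        exact hD.self z hz x hx hRx _ hA0 _ hB1' (hla (s, a, b) (s, c, d) h1 h2 h3 h4 hc')
  · -- `w` is different from `x, z`
    obtain ⟨-, -, -, hT4, -⟩ := hK1 x hx z hz hRz
    have hdis : ∀ c, c ∈ D.P w x → c ∈ D.P x z → c = D.pos x := by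
      intro c h1 h2
      rcases hK2 w hw x hx x hx z hz hRx hRz (fun h => hxw h.1.symm)
        (fun h => hzw h.1.symm) c h1 h2 with h | h
      · rcases h.2 with h3 | h3
        · exact absurd h3.symm hxw
        · exact absurd h3.symm hzw
      · exact h.1
    intro A hA B hB hc
    obtain ⟨⟨s', c, d⟩, hB0, rfl⟩ := List.mem_map.1 hB
    obtain ⟨hc1, hd1, hcd, hdx, hcz, -⟩ := hT4 s' c d hB0
    rcases List.mem_append.1 hA with hA | hA
    · by_cases hS : D.S w x = true
      · rw [if_pos hS, List.mem_singleton] at hA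
        rw [hA] at hc
        have hwn : D.pos w ∉ D.P x z := by
          intro h
          unfold Diag.P at h
          rcases List.mem_cons.1 h with h | h
          · exact hxw (hD.pos_inj w hw x hx h).symm
          · rcases List.mem_append.1 h with h | h
            · exact hD.notin x hx z hz w hw hRz h
            · exact hzw (hD.pos_inj w hw z hz (List.mem_singleton.1 h)).symm
        exact hsm0 false 1 (- r x) (s', c, d) (fun h => hwn (by
          have h' : D.pos w = c := h
          rw [h']; exact hc1)) (fun h => hwn (by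
          have h' : D.pos w = d := h
          rw [h']; exact hd1)) hc
      · rw [if_neg hS] at hA
        exact absurd hA List.not_mem_nil
    · obtain ⟨⟨s, a, b⟩, hA0, rfl⟩ := List.mem_map.1 hA
      obtain ⟨ha1, hb1, hab, hbw, hax, -⟩ := hA4 s a b hA0
      by_cases hbc : b = c
      · subst hbc
        have hbx := hdis b hb1 hc1
        obtain ⟨-, -, -, hne⟩ := hINB (L ×ₗ ℤ) (la D w r x (s, a, b)).2.1
          (la D w r x (s, a, b)).2.2 (lp b 0) (lp d 0)
        refine (hne hc.2).2.2.2.1 ?_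
        change lp b (if b = D.pos x then 0 else (if s = true then 1 else -1)) = lp b 0
        rw [if_pos hbx]
      · have h1 : a ≠ c := fun h => hax (hdis a ha1 (by rw [h]; exact hc1))
        have h2 : a ≠ d := fun h => hax (hdis a ha1 (by rw [h]; exact hd1))
        have h4 : b ≠ d := fun h => hdx (h ▸ hdis b hb1 (by rw [h]; exact hd1))
        have h5 := hla (s, a, b) (s', c, d) h1 h2 hbc h4 hc
        have h6 := hD.symA w hw x hx hRx s a b hA0
        refine hD.adj x hx w hw z hz (hD.sym _ _ hRx) hRz (Ne.symm hzw) _ h6 _ hB0 ⟨h5.1, ?_⟩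
        obtain ⟨h7, -⟩ := hINB L a b c d
        exact h7.1 h5.2

end Pool.MCR
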